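import Pool.Agent.NH20.RP.Main

set_option autoImplicit false

/-! Two discriminants with few small split primes repel each other. -/

namespace Pool.Agent.NH20.RP

open Finset Filter

/-- negative fundamental discriminants -/
def NegFund (d : ℤ) : Prop := d < 0 ∧ ((d % 4 = 1 ∧ Squarefree d) ∨
  ∃ m : ℤ, d = 4 * m ∧ (m % 4 = 2 ∨ m % 4 = 3) ∧ Squarefree m)

/-- the threshold -/
noncomputable def thr (d : ℤ) : ℝ :=
  Real.log |(d : ℝ)| ^ 2 * Real.log (Real.log |(d : ℝ)|) ^ 2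

/-- the split primes below the threshold -/
def SplitSet (d : ℤ) : Set ℕ := {p : ℕ | p.Prime ∧
  (p : ℝ) < thr d ∧ ¬ (p : ℤ) ∣ d ∧ ∃ x : ℤ, (4 * (p : ℤ)) ∣ x ^ 2 - d}

/-- the ramified primes below the threshold -/
def ramified (d : ℤ) : Set ℕ := {p : ℕ | p.Prime ∧ (p : ℝ) < thr d ∧ (p : ℤ) ∣ d}

theorem ramified_finite (d : ℤ) : (ramified d).Finite := by
  refine (Set.finite_Iio (⌈thr d⌉₊ + 1)).subset fun p hp => ?_
  rw [Set.mem_Iio]
  have h1 : (p : ℝ) < thr d := hp.2.1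
  have h2 := Nat.le_ceil (thr d)
  have : (p : ℝ) < ⌈thr d⌉₊ := by linarith
  have : p < ⌈thr d⌉₊ := by exact_mod_cast this
  omega

theorem splitSet_finite (d : ℤ) : (SplitSet d).Finite := by
  refine (Set.finite_Iio (⌈thr d⌉₊ + 1)).subset fun p hp => ?_
  rw [Set.mem_Iio]
  have h1 : (p : ℝ) < thr d := hp.2.1
  have h2 := Nat.le_ceil (thr d)
  have : (p : ℝ) < ⌈thr d⌉₊ := by linarith
  have : p < ⌈thr d⌉₊ := by exact_mod_cast this
  omega

theorem sqfree_dvd {a b : ℕ} (ha : Squarefree a) (hb : Squarefree b) (hs : IsSquare (a * b)) :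
    a = b := by
  have ha0 : a ≠ 0 := ha.ne_zero
  have hb0 : b ≠ 0 := hb.ne_zero
  have key : ∀ a b : ℕ, Squarefree a → a ≠ 0 → b ≠ 0 → IsSquare (a * b) →
      a.primeFactors ⊆ b.primeFactors := by
    intro a b ha ha0 hb0 hs p hp
    rw [Nat.mem_primeFactors] at hp ⊢
    refine ⟨hp.1, ?_, hb0⟩
    obtain ⟨s, hs⟩ := hs
    have h1 : p ∣ s * s := by rw [← hs]; exact Dvd.dvd.mul_right hp.2.1 _
    have h2 : p ∣ s := by
      rcases (Nat.Prime.dvd_mul hp.1).1 h1 with h | h <;> exact h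
    have h3 : p * p ∣ a * b := by rw [hs]; exact Nat.mul_dvd_mul h2 h2
    obtain ⟨c, hc⟩ := hp.2.1
    have hpc : ¬ p ∣ c := by
      intro h
      obtain ⟨e, he⟩ := h
      have := ha p ⟨e, by rw [hc, he]; ring⟩
      rw [Nat.isUnit_iff] at this
      exact hp.1.one_lt.ne' this
    rw [hc, mul_assoc] at h3
    have h4 := Nat.dvd_of_mul_dvd_mul_left hp.1.pos h3
    rcases (Nat.Prime.dvd_mul hp.1).1 h4 with h | h
    · exact absurd h hpc
    · exact h
  have h1 := key a b ha ha0 hb0 hs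
  have h2 := key b a hb hb0 ha0 (by rw [mul_comm]; exact hs)
  rw [← Nat.prod_primeFactors_of_squarefree ha, ← Nat.prod_primeFactors_of_squarefree hb,
    Finset.Subset.antisymm h1 h2]

theorem sqfree_int {a b : ℤ} (ha : Squarefree a) (hb : Squarefree b) (ha0 : a < 0) (hb0 : b < 0)
    (hs : IsSquare (a * b)) : a = b := by
  have h1 : IsSquare (a.natAbs * b.natAbs) := by
    obtain ⟨s, hs⟩ := hs
    refine ⟨s.natAbs, ?_⟩
    rw [← Int.natAbs_mul, hs, Int.natAbs_mul]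
  have h2 := sqfree_dvd (Int.squarefree_natAbs.2 ha) (Int.squarefree_natAbs.2 hb) h1
  omega

theorem sq_of_four {a : ℤ} (h : IsSquare (4 * a)) : IsSquare a := by
  obtain ⟨s, hs⟩ := h
  rcases Int.even_or_odd s with ⟨t, ht⟩ | ⟨t, ht⟩
  · refine ⟨t, ?_⟩
    rw [ht] at hs
    have : 4 * a = 4 * (t * t) := by rw [hs]; ring
    omega
  · exfalso
    have : 4 * a = 4 * (t * t + t) + 1 := by rw [hs, ht]; ring
    omega

theorem fund_eq (d₁ d₂ : ℤ) (h₁ : NegFund d₁) (h₂ : NegFund d₂) (hs : IsSquare (d₁ * d₂)) :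
    d₁ = d₂ := by
  obtain ⟨n1, h₁⟩ := h₁
  obtain ⟨n2, h₂⟩ := h₂
  rcases h₁ with ⟨a1, a2⟩ | ⟨m1, rfl, b1, b2⟩ <;> rcases h₂ with ⟨c1, c2⟩ | ⟨m2, rfl, e1, e2⟩
  · exact sqfree_int a2 c2 n1 n2 hs
  · exfalso
    have h : IsSquare (d₁ * m2) := by
      apply sq_of_four
      have : d₁ * (4 * m2) = 4 * (d₁ * m2) := by ring
      rwa [this] at hs
    have := sqfree_int a2 e2 n1 (by omega) h
    omega
  · exfalso
    have h : IsSquare (m1 * d₂) := by
      apply sq_of_four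
      have : 4 * m1 * d₂ = 4 * (m1 * d₂) := by ring
      rwa [this] at hs
    have := sqfree_int b2 c2 (by omega) n2 h
    omega
  · have h : IsSquare (m1 * m2) := by
      apply sq_of_four
      apply sq_of_four
      have : 4 * m1 * (4 * m2) = 4 * (4 * (m1 * m2)) := by ring
      rwa [this] at hs
    have := sqfree_int b2 e2 (by omega) (by omega) h
    rw [this]

theorem fund_mod (d : ℤ) (hd : NegFund d) : d % 4 = 0 ∨ d % 4 = 1 := by
  rcases hd.2 with ⟨h1, _⟩ | ⟨m, rfl, _, _⟩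
  · right; exact h1
  · left; omega

/-- an odd prime for which `d` is a nonzero square splits -/
theorem splits_of (d : ℤ) (hd : NegFund d) (p : ℕ) (hp : p.Prime) (hp2 : p ≠ 2)
    (hsq : ∃ t : ℤ, (p : ℤ) ∣ d - t ^ 2) :
    ∃ x : ℤ, (4 * (p : ℤ)) ∣ x ^ 2 - d := by
  obtain ⟨y, hy⟩ := hsq
  have hy' : (p : ℤ) ∣ y ^ 2 - d := by
    rw [← dvd_neg, neg_sub]
    exact hy
  have hpodd : (p : ℤ) % 2 = 1 := by
    have := hp.odd_of_ne_two hp2
    rw [Nat.odd_iff] at this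
    omega
  obtain ⟨x, hx1, hx2⟩ : ∃ x : ℤ, (p : ℤ) ∣ x ^ 2 - d ∧ x % 2 = d % 2 := by
    by_cases h : y % 2 = d % 2
    · exact ⟨y, hy', h⟩
    · refine ⟨y + p, ?_, by omega⟩
      have : (y + p) ^ 2 - d = (y ^ 2 - d) + p * (2 * y + p) := by ring
      rw [this]
      exact dvd_add hy' (dvd_mul_right _ _)
  refine ⟨x, ?_⟩
  have h4 : (4 : ℤ) ∣ x ^ 2 - d := by
    have hm := fund_mod d hd
    rcases Int.even_or_odd x with ⟨k, hk⟩ | ⟨k, hk⟩
    · have hd0 : d % 4 = 0 := by omega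
      have : x ^ 2 = 4 * k ^ 2 := by rw [hk]; ring
      rw [this]
      omega
    · have hd1 : d % 4 = 1 := by omega
      have : x ^ 2 = 4 * (k ^ 2 + k) + 1 := by rw [hk]; ring
      rw [this]
      omega
  have hcop : IsCoprime (4 : ℤ) (p : ℤ) := by
    have h1 : Nat.Coprime (2 ^ 2) p :=
      Nat.Coprime.pow_left 2 ((Nat.coprime_primes Nat.prime_two hp).2 (Ne.symm hp2))
    have h2 := Nat.isCoprime_iff_coprime.2 h1
    push_cast at h2
    exact h2
  exact hcop.mul_dvd h4 hx1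

theorem odd_sq_not_dvd (d : ℤ) (hd : NegFund d) (p : ℕ) (hp : p.Prime) (hp2 : p ≠ 2) :
    ¬ (p : ℤ) ^ 2 ∣ d := by
  intro h
  have hnu : ¬ IsUnit (p : ℤ) := by
    rw [Int.isUnit_iff]
    have := hp.two_le
    omega
  rcases hd.2 with ⟨_, h1⟩ | ⟨m, rfl, _, h1⟩
  · exact hnu (h1 _ (by rwa [← pow_two]))
  · have hcop : IsCoprime ((p : ℤ) ^ 2) 4 := by
      have h1 : Nat.Coprime (p ^ 2) (2 ^ 2) :=
        Nat.Coprime.pow _ _ ((Nat.coprime_primes hp Nat.prime_two).2 hp2)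
      have h2 := Nat.isCoprime_iff_coprime.2 h1
      push_cast at h2
      exact h2
    have h2 := hcop.dvd_of_dvd_mul_left h
    exact hnu (h1 _ (by rwa [← pow_two]))

/-- nonresidues multiply to residues -/
theorem mul_nonres (p : ℕ) (hp : p.Prime) (a b : ℤ) (ha : ¬ ∃ t : ℤ, (p : ℤ) ∣ a - t ^ 2)
    (hb : ¬ ∃ t : ℤ, (p : ℤ) ∣ b - t ^ 2) : ∃ t : ℤ, (p : ℤ) ∣ a * b - t ^ 2 := by
  have : Fact p.Prime := ⟨hp⟩
  have key : ∀ c : ℤ, (¬ ∃ t : ℤ, (p : ℤ) ∣ c - t ^ 2) → legendreSym p c = -1 := by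
    intro c hc
    have h0 : ((c : ℤ) : ZMod p) ≠ 0 := by
      intro h
      apply hc
      refine ⟨0, ?_⟩
      rw [ZMod.intCast_zmod_eq_zero_iff_dvd] at h
      simpa using h
    rcases legendreSym.eq_one_or_neg_one p h0 with h | h
    · exfalso
      apply hc
      obtain ⟨y, hy⟩ := (legendreSym.eq_one_iff p h0).1 h
      refine ⟨y.val, ?_⟩
      rw [← ZMod.intCast_zmod_eq_zero_iff_dvd]
      push_cast
      rw [ZMod.natCast_zmod_val, hy]
      ring
    · exact h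
  have h1 : legendreSym p (a * b) = 1 := by
    rw [legendreSym.mul, key a ha, key b hb]
    norm_num
  have h0 : ((a * b : ℤ) : ZMod p) ≠ 0 := by
    intro h
    rw [(legendreSym.eq_zero_iff p (a * b)).2 h] at h1
    norm_num at h1
  obtain ⟨y, hy⟩ := (legendreSym.eq_one_iff p h0).1 h1
  refine ⟨y.val, ?_⟩
  rw [← ZMod.intCast_zmod_eq_zero_iff_dvd]
  push_cast at hy ⊢
  rw [ZMod.natCast_zmod_val, hy]
  ring

/-- division by a square modulo a prime -/
theorem div_sq (p : ℕ) (hp : p.Prime) (m k : ℤ) (hk : ¬ (p : ℤ) ∣ k)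
    (h : ∃ t : ℤ, (p : ℤ) ∣ m * k ^ 2 - t ^ 2) : ∃ t : ℤ, (p : ℤ) ∣ m - t ^ 2 := by
  have : Fact p.Prime := ⟨hp⟩
  obtain ⟨t, ht⟩ := h
  have hk0 : ((k : ℤ) : ZMod p) ≠ 0 := fun h => hk ((ZMod.intCast_zmod_eq_zero_iff_dvd k p).1 h)
  rw [← ZMod.intCast_zmod_eq_zero_iff_dvd] at ht
  push_cast at ht
  refine ⟨((t : ZMod p) * (k : ZMod p)⁻¹).val, ?_⟩
  rw [← ZMod.intCast_zmod_eq_zero_iff_dvd]
  push_cast
  rw [ZMod.natCast_zmod_val]
  have e : (m : ZMod p) * (k : ZMod p) ^ 2 = (t : ZMod p) ^ 2 := by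
    rw [← sub_eq_zero]; exact ht
  have e2 : (m : ZMod p) = (t : ZMod p) ^ 2 * ((k : ZMod p)⁻¹) ^ 2 := by
    rw [← e]
    field_simp
  rw [e2]
  ring

/-- **Repulsion** of two discriminants with few split primes. -/
theorem repulse (A ε : ℝ) (hε : 0 < ε) : ∃ D₀ : ℝ, ∀ d₁ d₂ : ℤ, NegFund d₁ → NegFund d₂ →
    d₁ ≠ d₂ → D₀ ≤ |(d₁ : ℝ)| → |(d₁ : ℝ)| ≤ |(d₂ : ℝ)| →
    ((ramified d₁).ncard : ℝ) ≤ Real.log (Real.log |(d₁ : ℝ)|) ^ A →
    (∃ m k : ℤ, k ≠ 0 ∧ d₁ * d₂ = m * k ^ 2 ∧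
      |(m : ℝ)| ≤ Real.log |(d₁ : ℝ)| ^ (8 * Real.exp (1 / 2) - ε)) →
    Real.log (Real.log |(d₁ : ℝ)|) ^ A ≤ (SplitSet d₁).ncard ∨
      Real.log (Real.log |(d₁ : ℝ)|) ^ A ≤ (SplitSet d₂).ncard := by
  wlog hε1 : ε ≤ 1 generalizing ε
  · obtain ⟨D₀, h⟩ := this 1 one_pos le_rfl
    refine ⟨max D₀ (Real.exp 1), fun d₁ d₂ h1 h2 h3 h4 h5 h6 ⟨m, k, h7, h8, h9⟩ => ?_⟩
    refine h d₁ d₂ h1 h2 h3 ((le_max_left _ _).trans h4) h5 h6 ⟨m, k, h7, h8, h9.trans ?_⟩
    apply Real.rpow_le_rpow_of_exponent_le _ (by linarith)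
    rw [Real.le_log_iff_exp_le (lt_of_lt_of_le (Real.exp_pos 1) ((le_max_right _ _).trans h4))]
    exact (le_max_right _ _).trans h4
  wlog hA : 1 ≤ A generalizing A
  · -- a larger exponent: only the condition on the number of prime factors matters
    obtain ⟨D₀, h⟩ := this 1 le_rfl
    have hev : ∀ᶠ P : ℝ in atTop, 1 ≤ Real.log (Real.log P) :=
      (Real.tendsto_log_atTop.comp Real.tendsto_log_atTop).eventually_ge_atTop 1
    obtain ⟨P0, hP0⟩ := eventually_atTop.1 hev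
    refine ⟨max D₀ P0, fun d₁ d₂ h1 h2 h3 h4 h5 h6 h7 => ?_⟩
    have hl := hP0 _ ((le_max_right _ _).trans h4)
    have hle : Real.log (Real.log |(d₁ : ℝ)|) ^ A ≤ Real.log (Real.log |(d₁ : ℝ)|) ^ (1 : ℝ) :=
      Real.rpow_le_rpow_of_exponent_le hl (by linarith)
    rcases h d₁ d₂ h1 h2 h3 ((le_max_left _ _).trans h4) h5 (h6.trans hle) h7 with h8 | h8
    · left; exact hle.trans h8
    · right; exact hle.trans h8
  obtain ⟨y0, hy0⟩ := eventually_atTop.1 (main3 (A + 1) (ε / 2) (by positivity))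
  -- eventual inequalities
  have E : ∀ᶠ P : ℝ in atTop, 16 ≤ Real.log P ∧ 4 ≤ Real.log (Real.log P) ∧
      (y0 : ℝ) ≤ Real.log P := by
    refine (Real.tendsto_log_atTop.eventually_ge_atTop _).and
      (((Real.tendsto_log_atTop.comp Real.tendsto_log_atTop).eventually_ge_atTop _).and
      (Real.tendsto_log_atTop.eventually_ge_atTop _))
  obtain ⟨D₀, hD₀⟩ := eventually_atTop.1 E
  refine ⟨D₀, fun d₁ d₂ hd₁ hd₂ hne hD₁ hD₂ hω ⟨m, k, hk, hmk, hm⟩ => ?_⟩
  obtain ⟨e1, e2, e3⟩ := hD₀ _ hD₁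
  by_contra hcon
  push Not at hcon
  obtain ⟨hN1, hN2⟩ := hcon
  set P : ℝ := |(d₁ : ℝ)| with hP
  set L : ℝ := Real.log P with hL
  set l : ℝ := Real.log L with hl
  have hP1 : 0 < P := by
    by_contra h
    have h0 : P ≤ 0 := by linarith
    have h1 : 0 ≤ P := abs_nonneg _
    have h2 : P = 0 := le_antisymm h0 h1
    rw [hL, h2, Real.log_zero] at e1
    linarith
  -- thresholds
  have hthr1 : thr d₁ = L ^ 2 * l ^ 2 := rfl
  have hthr2 : L ^ 2 * l ^ 2 ≤ thr d₂ := by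
    have h1 : L ≤ Real.log |(d₂ : ℝ)| := Real.log_le_log hP1 hD₂
    have h2 : l ≤ Real.log (Real.log |(d₂ : ℝ)|) := Real.log_le_log (by linarith) h1
    unfold thr
    gcongr
  set y : ℕ := ⌊L ^ 2 * l ^ 2 / 2⌋₊ with hy
  have hL2 : 0 < L ^ 2 := by positivity
  have hyle : (y : ℝ) ≤ L ^ 2 * l ^ 2 / 2 := Nat.floor_le (by positivity)
  have hl16 : 16 ≤ l ^ 2 := by nlinarith
  have hyge : L ^ 2 ≤ y := by
    have h1 := (Nat.lt_floor_add_one (L ^ 2 * l ^ 2 / 2)).le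
    rw [← hy] at h1
    have h2 : L ^ 2 * 16 ≤ L ^ 2 * l ^ 2 := mul_le_mul_of_nonneg_left hl16 hL2.le
    have h3 : 1 ≤ L ^ 2 := by nlinarith
    linarith
  have hypos : (0 : ℝ) < y := by linarith
  have hylt : ∀ p : ℕ, p ≤ y → (p : ℝ) < L ^ 2 * l ^ 2 := by
    intro p hp
    have : (p : ℝ) ≤ y := by exact_mod_cast hp
    have h2 : 0 < L ^ 2 * l ^ 2 := by positivity
    linarith
  have hyy0 : y0 ≤ y := by
    have : (y0 : ℝ) ≤ y := by nlinarith
    exact_mod_cast this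
  have hlogy : 2 * l ≤ Real.log y := by
    have h1 := Real.log_le_log hL2 hyge
    rw [Real.log_pow] at h1
    push_cast at h1
    exact h1
  -- the exceptional set
  set S : Finset ℕ := insert 2 ((ramified_finite d₁).toFinset ∪ ((splitSet_finite d₁).toFinset ∪
    (splitSet_finite d₂).toFinset)) with hS
  have hc1 : (((splitSet_finite d₁).toFinset).card : ℝ) < l ^ A := by
    rw [← Set.ncard_eq_toFinset_card _ (splitSet_finite d₁)]
    exact hN1
  have hc2 : (((splitSet_finite d₂).toFinset).card : ℝ) < l ^ A := by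
    rw [← Set.ncard_eq_toFinset_card _ (splitSet_finite d₂)]
    exact hN2
  rw [Set.ncard_eq_toFinset_card _ (ramified_finite d₁)] at hω
  have hScard : (S.card : ℝ) ≤ Real.log y ^ (A + 1) := by
    have h1 : S.card ≤ ((ramified_finite d₁).toFinset).card + (((splitSet_finite d₁).toFinset).card +
        ((splitSet_finite d₂).toFinset).card) + 1 :=
      (card_insert_le _ _).trans (Nat.add_le_add_right ((card_union_le _ _).trans
        (Nat.add_le_add_left (card_union_le _ _) _)) 1)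
    have h2 : (S.card : ℝ) ≤ ((ramified_finite d₁).toFinset).card + (((splitSet_finite d₁).toFinset).card +
        ((splitSet_finite d₂).toFinset).card) + 1 := by exact_mod_cast h1
    have h3 : (1 : ℝ) ≤ l ^ A := Real.one_le_rpow (by linarith) (by linarith)
    calc (S.card : ℝ) ≤ l ^ A * 4 := by linarith
      _ ≤ l ^ A * l := by
          apply mul_le_mul_of_nonneg_left e2 (by positivity)
      _ = l ^ (A + 1) := by
          rw [Real.rpow_add (by linarith), Real.rpow_one]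
      _ ≤ Real.log y ^ (A + 1) := by
          apply Real.rpow_le_rpow (by linarith) (by linarith) (by linarith)
  have hmy : |(m : ℝ)| ≤ (y : ℝ) ^ (4 * Real.exp (1 / 2) - ε / 2) := by
    refine hm.trans ?_
    have h1 : (L ^ 2) ^ (4 * Real.exp (1 / 2) - ε / 2) = L ^ (8 * Real.exp (1 / 2) - ε) := by
      rw [← Real.rpow_natCast L 2, ← Real.rpow_mul (by linarith)]
      congr 1
      push_cast
      ring
    rw [← h1]
    apply Real.rpow_le_rpow hL2.le hyge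
    have := Real.add_one_le_exp (1 / 2 : ℝ)
    linarith
  have hsq : IsSquare m := by
    have hm' : ((|m| : ℤ) : ℝ) ≤ (y : ℝ) ^ (4 * Real.exp (1 / 2) - ε / 2) := by
      rw [Int.cast_abs]
      exact hmy
    refine hy0 y hyy0 m S hScard (by exact_mod_cast hm') ?_
    intro p hp hpy hpS
    rw [hS, mem_insert, mem_union, mem_union, not_or, not_or, not_or] at hpS
    obtain ⟨hp2, hpd1, hps1, hps2⟩ := hpS
    rw [Set.Finite.mem_toFinset] at hps1 hps2 hpd1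
    have hpd1' : ¬ (p : ℤ) ∣ d₁ := fun h => hpd1 ⟨hp, by rw [hthr1]; exact hylt p hpy, h⟩
    have hpp : Prime (p : ℤ) := Nat.prime_iff_prime_int.1 hp
    by_cases hpd2 : (p : ℤ) ∣ d₂
    · -- ramified in the second field only
      refine ⟨0, ?_⟩
      have h1 : (p : ℤ) ∣ m * k ^ 2 := by
        rw [← hmk]
        exact Dvd.dvd.mul_left hpd2 _
      rcases hpp.dvd_or_dvd h1 with h | h
      · simpa using h
      · exfalso
        have h2 : (p : ℤ) ∣ k := hpp.dvd_of_dvd_pow h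
        have h3 : (p : ℤ) ^ 2 ∣ d₁ * d₂ := by
          rw [hmk]
          exact Dvd.dvd.mul_left (pow_dvd_pow_of_dvd h2 2) _
        have h4 : IsCoprime ((p : ℤ) ^ 2) d₁ :=
          IsCoprime.pow_left ((Prime.coprime_iff_not_dvd hpp).2 hpd1')
        exact odd_sq_not_dvd d₂ hd₂ p hp hp2 (h4.dvd_of_dvd_mul_left h3)
    · have n1 : ¬ ∃ t : ℤ, (p : ℤ) ∣ d₁ - t ^ 2 := by
        intro h
        apply hps1
        exact ⟨hp, by rw [hthr1]; exact hylt p hpy, hpd1', splits_of d₁ hd₁ p hp hp2 h⟩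
      have n2 : ¬ ∃ t : ℤ, (p : ℤ) ∣ d₂ - t ^ 2 := by
        intro h
        apply hps2
        exact ⟨hp, (hylt p hpy).trans_le hthr2, hpd2, splits_of d₂ hd₂ p hp hp2 h⟩
      have h1 := mul_nonres p hp d₁ d₂ n1 n2
      rw [hmk] at h1
      apply div_sq p hp m k _ h1
      intro h
      have h2 : (p : ℤ) ∣ d₁ * d₂ := by
        rw [hmk]
        exact Dvd.dvd.mul_left (dvd_pow h two_ne_zero) _
      rcases hpp.dvd_or_dvd h2 with h3 | h3
      · exact hpd1' h3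
      · exact hpd2 h3
  apply hne
  apply fund_eq d₁ d₂ hd₁ hd₂
  rw [hmk]
  exact hsq.mul ⟨k, by ring⟩

end Pool.Agent.NH20.RP
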