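import Pool.Agent.R852.BC.Main

set_option autoImplicit false

/-! Loss of the change of the values of a character at few primes (variant of `R852.BC.Gs`). -/

namespace Pool.Agent.NH20.RP

open Finset Filter Pool.Agent.H471R4.BW Pool.Agent.R852.BC

variable {N : ℕ} (χ : DirichletCharacter ℂ N)

/-- the loss at a prime -/
noncomputable def rh (σ : ℝ) (q : ℕ) : ℝ := ((q : ℝ) ^ σ + 1) / ((q : ℝ) ^ σ - 1)

lemma pow_gt {σ : ℝ} (hσ : 1 / 2 ≤ σ) {q : ℕ} (hq : q.Prime) : 7 / 5 < (q : ℝ) ^ σ := by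
  have h1 : (q : ℝ) ^ (1 / 2 : ℝ) ≤ (q : ℝ) ^ σ :=
    Real.rpow_le_rpow_of_exponent_le (by exact_mod_cast hq.one_lt.le) hσ
  have h2 := sqrt_gt hq
  rw [Real.sqrt_eq_rpow] at h2
  linarith

lemma one_le_rh {σ : ℝ} (hσ : 1 / 2 ≤ σ) {q : ℕ} (hq : q.Prime) : 1 ≤ rh σ q := by
  have := pow_gt hσ hq
  unfold rh
  rw [le_div_iff₀ (by linarith)]
  linarith

lemma rh_le_exp {σ : ℝ} (hσ : 1 / 2 ≤ σ) {q : ℕ} (hq : q.Prime) :
    rh σ q ≤ Real.exp (7 * (q : ℝ) ^ (-σ)) := by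
  have h := pow_gt hσ hq
  have hq0 : (0 : ℝ) < q := by exact_mod_cast hq.pos
  set s := (q : ℝ) ^ σ with hs
  have h1 : rh σ q ≤ 1 + 7 * (q : ℝ) ^ (-σ) := by
    unfold rh
    rw [Real.rpow_neg hq0.le, ← hs, div_le_iff₀ (by linarith)]
    have hs0 : 0 < s := by linarith
    have e : (1 + 7 * s⁻¹) * (s - 1) = s + 6 - 7 * s⁻¹ := by field_simp; ring
    rw [e]
    have : s⁻¹ ≤ 5 / 7 := by
      rw [inv_le_comm₀ hs0 (by norm_num)]
      linarith
    linarith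
  have h2 := Real.add_one_le_exp (7 * (q : ℝ) ^ (-σ))
  linarith

lemma bound_step' (σ : ℝ) (hσ : 1 / 2 ≤ σ) (hσ1 : σ ≤ 1) (S : Finset ℕ) {q : ℕ} (hq : q.Prime) (X : ℕ)
    (a b : ℝ) (ha : 0 ≤ a) (hb : 0 ≤ b)
    (h : ∀ Y ≤ X, ‖G χ S Y‖ ≤ a * Y + b * (Y : ℝ) ^ σ) :
    ∀ Y ≤ X, ‖G χ (insert q S) Y‖ ≤ rh σ q * (a * Y + b * (Y : ℝ) ^ σ) := by
  intro Y
  induction Y using Nat.strong_induction_on with
  | _ Y ih =>
    intro hYX
    rcases Nat.eq_zero_or_pos Y with h0 | h0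
    · subst h0
      have hσ0 : σ ≠ 0 := by linarith
      simp [G, Real.zero_rpow hσ0]
    · have hlt : Y / q < Y := Nat.div_lt_self h0 hq.one_lt
      have h1 := ih (Y / q) hlt (hlt.le.trans hYX)
      have h2 := h Y hYX
      have h3 := h (Y / q) (hlt.le.trans hYX)
      have h4 := G_step χ S hq Y
      set s := (q : ℝ) ^ σ with hs
      have hs1 : 7 / 5 < s := pow_gt hσ hq
      have hs0 : 0 < s := by linarith
      have hq1 : (1 : ℝ) ≤ q := by exact_mod_cast hq.one_lt.le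
      have hsq : s ≤ q := by
        calc s ≤ (q : ℝ) ^ (1 : ℝ) := Real.rpow_le_rpow_of_exponent_le hq1 hσ1
          _ = q := Real.rpow_one _
      have hY0 : (0 : ℝ) ≤ Y := Nat.cast_nonneg Y
      have h5 : (((Y / q : ℕ) : ℕ) : ℝ) ≤ Y / q := Nat.cast_div_le
      have h6 : (((Y / q : ℕ) : ℕ) : ℝ) ^ σ ≤ (Y : ℝ) ^ σ / s := by
        rw [hs, ← Real.div_rpow hY0 (by linarith)]
        exact Real.rpow_le_rpow (Nat.cast_nonneg _) h5 (by linarith)
      have h7 : (Y : ℝ) / q ≤ Y / s := div_le_div_of_nonneg_left hY0 hs0 hsq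
      have hρ : 1 ≤ rh σ q := one_le_rh hσ hq
      have hid : rh σ q / s + 1 + 1 / s = rh σ q := by
        unfold rh
        rw [← hs]
        have : s - 1 ≠ 0 := by linarith
        field_simp
        ring
      have hYσ : 0 ≤ (Y : ℝ) ^ σ := Real.rpow_nonneg hY0 _
      have h8 : a * (((Y / q : ℕ) : ℕ) : ℝ) + b * (((Y / q : ℕ) : ℕ) : ℝ) ^ σ ≤
          (a * Y + b * (Y : ℝ) ^ σ) / s := by
        have e1 : a * (((Y / q : ℕ) : ℕ) : ℝ) ≤ a * (Y / s) :=
          mul_le_mul_of_nonneg_left (h5.trans h7) ha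
        have e2 : b * (((Y / q : ℕ) : ℕ) : ℝ) ^ σ ≤ b * ((Y : ℝ) ^ σ / s) :=
          mul_le_mul_of_nonneg_left h6 hb
        calc _ ≤ a * (Y / s) + b * ((Y : ℝ) ^ σ / s) := add_le_add e1 e2
          _ = _ := by ring
      calc ‖G χ (insert q S) Y‖ ≤ _ := h4
        _ ≤ rh σ q * ((a * Y + b * (Y : ℝ) ^ σ) / s) + (a * Y + b * (Y : ℝ) ^ σ) +
            (a * Y + b * (Y : ℝ) ^ σ) / s :=
            add_le_add (add_le_add (h1.trans (mul_le_mul_of_nonneg_left h8 (by linarith))) h2)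
              (h3.trans h8)
        _ = (rh σ q / s + 1 + 1 / s) * (a * Y + b * (Y : ℝ) ^ σ) := by ring
        _ = _ := by rw [hid]

theorem G_bound' (σ : ℝ) (hσ : 1 / 2 ≤ σ) (hσ1 : σ ≤ 1) (S : Finset ℕ) (hS : ∀ q ∈ S, q.Prime)
    (X : ℕ) (a b : ℝ) (ha : 0 ≤ a)
    (hb : 0 ≤ b) (h : ∀ Y ≤ X, ‖shortSum N χ Y‖ ≤ a * Y + b * (Y : ℝ) ^ σ) :
    ∀ Y ≤ X, ‖G χ S Y‖ ≤ (∏ q ∈ S, rh σ q) * (a * Y + b * (Y : ℝ) ^ σ) := by
  induction S using Finset.induction_on with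
  | empty =>
    intro Y hY
    rw [G_empty, prod_empty, one_mul]
    exact h Y hY
  | insert q S hqS ih =>
    have hq : q.Prime := hS q (mem_insert_self q S)
    have h1 := ih (fun l hl => hS l (mem_insert_of_mem hl))
    set P := ∏ q ∈ S, rh σ q with hP
    have hP0 : 0 ≤ P := prod_nonneg fun l hl => by
      have := one_le_rh hσ (hS l (mem_insert_of_mem hl))
      linarith
    have h2 := bound_step' χ σ hσ hσ1 S hq X (P * a) (P * b) (by positivity) (by positivity)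
      (fun Y hY => by
        have := h1 Y hY
        linarith)
    intro Y hY
    rw [prod_insert hqS]
    have := h2 Y hY
    linarith

/-- sums over sets of given cardinality -/
theorem sum_rpow_le (σ : ℝ) (hσ0 : 0 ≤ σ) (hσ1 : σ ≤ 1) (S : Finset ℕ) (hS : ∀ q ∈ S, 1 ≤ q) (K : ℕ)
    (hK : S.card ≤ K) (hK1 : 1 ≤ K) :
    ∑ q ∈ S, (q : ℝ) ^ (-σ) ≤ (K : ℝ) ^ (1 - σ) * (2 + Real.log K) := by
  have hK0 : (0 : ℝ) < K := by exact_mod_cast hK1
  rw [← Finset.sum_filter_add_sum_filter_not S (fun q => q ≤ K)]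
  have h1 : ∑ q ∈ S.filter (fun q => q ≤ K), (q : ℝ) ^ (-σ) ≤
      (K : ℝ) ^ (1 - σ) * (1 + Real.log K) := by
    calc ∑ q ∈ S.filter (fun q => q ≤ K), (q : ℝ) ^ (-σ)
        ≤ ∑ q ∈ Icc 1 K, (q : ℝ) ^ (-σ) := by
          apply sum_le_sum_of_subset_of_nonneg
          · intro q hq
            rw [mem_filter] at hq
            rw [mem_Icc]
            exact ⟨hS q hq.1, hq.2⟩
          · intro q _ _
            positivity
      _ ≤ ∑ q ∈ Icc 1 K, (K : ℝ) ^ (1 - σ) * (q : ℝ)⁻¹ := by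
          apply sum_le_sum
          intro q hq
          rw [mem_Icc] at hq
          have hq0 : (0 : ℝ) < q := by exact_mod_cast hq.1
          have e : (q : ℝ) ^ (-σ) = (q : ℝ) ^ (1 - σ) * (q : ℝ)⁻¹ := by
            rw [← Real.rpow_neg_one, ← Real.rpow_add hq0]
            congr 1
            ring
          rw [e]
          apply mul_le_mul_of_nonneg_right _ (by positivity)
          exact Real.rpow_le_rpow hq0.le (by exact_mod_cast hq.2) (by linarith)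
      _ = (K : ℝ) ^ (1 - σ) * ∑ q ∈ Icc 1 K, (q : ℝ)⁻¹ := by rw [mul_sum]
      _ ≤ _ := by
          apply mul_le_mul_of_nonneg_left _ (by positivity)
          have := harmonic_le_one_add_log K
          rw [harmonic_eq_sum_Icc] at this
          push_cast at this
          exact this
  have h2 : ∑ q ∈ S.filter (fun q => ¬ q ≤ K), (q : ℝ) ^ (-σ) ≤ (K : ℝ) ^ (1 - σ) := by
    calc ∑ q ∈ S.filter (fun q => ¬ q ≤ K), (q : ℝ) ^ (-σ)
        ≤ ∑ q ∈ S.filter (fun q => ¬ q ≤ K), (K : ℝ) ^ (-σ) := by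
          apply sum_le_sum
          intro q hq
          rw [mem_filter] at hq
          apply Real.rpow_le_rpow_of_nonpos hK0 _ (by linarith)
          have : K ≤ q := by omega
          exact_mod_cast this
      _ = ((S.filter (fun q => ¬ q ≤ K)).card : ℝ) * (K : ℝ) ^ (-σ) := by
          rw [sum_const, nsmul_eq_mul]
      _ ≤ (K : ℝ) * (K : ℝ) ^ (-σ) := by
          apply mul_le_mul_of_nonneg_right _ (by positivity)
          exact_mod_cast (card_filter_le _ _).trans hK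
      _ = (K : ℝ) ^ (1 - σ) := by
          nth_rewrite 1 [← Real.rpow_one (K : ℝ)]
          rw [← Real.rpow_add hK0]
          congr 1
  calc _ ≤ (K : ℝ) ^ (1 - σ) * (1 + Real.log K) + (K : ℝ) ^ (1 - σ) := add_le_add h1 h2
    _ = _ := by ring

theorem prod_rh_le (σ : ℝ) (hσ : 1 / 2 ≤ σ) (hσ1 : σ ≤ 1) (S : Finset ℕ) (hS : ∀ q ∈ S, q.Prime)
    (K : ℕ) (hK : S.card ≤ K) (hK1 : 1 ≤ K) :
    ∏ q ∈ S, rh σ q ≤ Real.exp (7 * ((K : ℝ) ^ (1 - σ) * (2 + Real.log K))) := by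
  calc ∏ q ∈ S, rh σ q ≤ ∏ q ∈ S, Real.exp (7 * (q : ℝ) ^ (-σ)) := by
        apply Finset.prod_le_prod
        · intro q hq
          have := one_le_rh hσ (hS q hq)
          linarith
        · intro q hq
          exact rh_le_exp hσ (hS q hq)
    _ = Real.exp (7 * ∑ q ∈ S, (q : ℝ) ^ (-σ)) := by
        rw [← Real.exp_sum, mul_sum]
    _ ≤ _ := by
        apply Real.exp_le_exp.2
        apply mul_le_mul_of_nonneg_left _ (by norm_num)
        exact sum_rpow_le σ (by linarith) hσ1 S (fun q hq => (hS q hq).one_lt.le) K hK hK1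

end Pool.Agent.NH20.RP
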