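import Pool.Agent.NH20.RP.Gs

set_option autoImplicit false
set_option maxHeartbeats 4000000

/-! An integer `D` with `|D| ≤ y ^ (4 √e - ε)` which is a square modulo all but `(log y) ^ A` of the
primes `≤ y` is a square (variant of `Pool.Agent.R852.BC.Main`). -/

namespace Pool.Agent.NH20.RP

open Finset Filter Pool.Agent.H471R4.BW Pool.Agent.R852.BC

theorem card_pf_le {n : ℕ} (hn : n ≠ 0) : (n.primeFactors.card : ℝ) ≤ 2 * Real.log n := by
  have h1 : 2 ^ n.primeFactors.card ≤ ∏ p ∈ n.primeFactors, p := by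
    rw [← Finset.prod_const]
    apply Finset.prod_le_prod'
    intro p hp
    exact (Nat.prime_of_mem_primeFactors hp).two_le
  have h2 : ∏ p ∈ n.primeFactors, p ≤ n := Nat.le_of_dvd (Nat.pos_of_ne_zero hn) (Nat.prod_primeFactors_dvd n)
  have h3 : ((2 : ℝ)) ^ n.primeFactors.card ≤ n := by exact_mod_cast h1.trans h2
  have h4 := Real.log_le_log (by positivity) h3
  rw [Real.log_pow] at h4
  have := Real.log_two_gt_d9
  have h5 : (0 : ℝ) ≤ n.primeFactors.card := Nat.cast_nonneg _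
  nlinarith

/-- the logarithm of the loss is small -/
theorem loss_small (A β : ℝ) (hA : 1 ≤ A) (hβ : 0 < β) : ∀ᶠ L : ℝ in atTop,
    7 * (((32 * L ^ A) ^ (1 / (2 * A)) * (2 + Real.log (32 * L ^ A)))) ≤ β * L := by
  have hA0 : 0 < A := by linarith
  have h1 := (isLittleO_log_rpow_atTop (show (0 : ℝ) < 1 / 4 by norm_num)).bound
    (show (0 : ℝ) < 1 by norm_num)
  have h2 : ∀ᶠ L : ℝ in atTop, 7 * 32 * (2 + Real.log 32 + A) / β ≤ L ^ (1 / 4 : ℝ) :=
    (tendsto_rpow_atTop (by norm_num)).eventually_ge_atTop _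
  filter_upwards [h1, h2, eventually_ge_atTop 1] with L h1 h2 hL1
  have hL0 : 0 < L := by linarith
  have hl0 : 0 ≤ Real.log L := Real.log_nonneg hL1
  rw [Real.norm_of_nonneg hl0, Real.norm_of_nonneg (by positivity), one_mul] at h1
  have e1 : (32 * L ^ A) ^ (1 / (2 * A)) ≤ 32 * L ^ (1 / 2 : ℝ) := by
    rw [Real.mul_rpow (by norm_num) (by positivity), ← Real.rpow_mul hL0.le]
    have : A * (1 / (2 * A)) = 1 / 2 := by field_simp
    rw [this]
    apply mul_le_mul_of_nonneg_right _ (by positivity)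
    calc (32 : ℝ) ^ (1 / (2 * A)) ≤ 32 ^ (1 : ℝ) := by
          apply Real.rpow_le_rpow_of_exponent_le (by norm_num)
          rw [div_le_one (by positivity)]
          linarith
      _ = 32 := Real.rpow_one _
  have e2 : Real.log (32 * L ^ A) = Real.log 32 + A * Real.log L := by
    rw [Real.log_mul (by norm_num) (by positivity), Real.log_rpow hL0]
  have e3 : 2 + Real.log (32 * L ^ A) ≤ (2 + Real.log 32 + A) * L ^ (1 / 4 : ℝ) := by
    rw [e2]
    have h4 : (1 : ℝ) ≤ L ^ (1 / 4 : ℝ) := Real.one_le_rpow hL1 (by norm_num)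
    have h5 : 0 ≤ Real.log 32 := Real.log_nonneg (by norm_num)
    have h6 : A * Real.log L ≤ A * L ^ (1 / 4 : ℝ) := mul_le_mul_of_nonneg_left h1 (by linarith)
    nlinarith
  have h7 : 0 ≤ 2 + Real.log (32 * L ^ A) := by
    have : (1 : ℝ) ≤ 32 * L ^ A := by
      have : (1 : ℝ) ≤ L ^ A := Real.one_le_rpow hL1 (by linarith)
      linarith
    have := Real.log_nonneg this
    linarith
  rw [div_le_iff₀ hβ] at h2
  calc 7 * ((32 * L ^ A) ^ (1 / (2 * A)) * (2 + Real.log (32 * L ^ A)))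
      ≤ 7 * ((32 * L ^ (1 / 2 : ℝ)) * ((2 + Real.log 32 + A) * L ^ (1 / 4 : ℝ))) := by
        gcongr
    _ = (7 * 32 * (2 + Real.log 32 + A)) * (L ^ (1 / 2 : ℝ) * L ^ (1 / 4 : ℝ)) := by ring
    _ ≤ (L ^ (1 / 4 : ℝ) * β) * (L ^ (1 / 2 : ℝ) * L ^ (1 / 4 : ℝ)) :=
        mul_le_mul_of_nonneg_right h2 (by positivity)
    _ = β * (L ^ (1 / 4 : ℝ) * L ^ (1 / 2 : ℝ) * L ^ (1 / 4 : ℝ)) := by ring
    _ = β * L := by
        rw [← Real.rpow_add hL0, ← Real.rpow_add hL0]
        norm_num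

/-- **A small integer which is a square modulo all but few of the small primes is a square**
(Burgess, for all moduli). -/
theorem main3 (A ε : ℝ) (hε : 0 < ε) : ∀ᶠ y : ℕ in atTop, ∀ (D : ℤ) (S : Finset ℕ),
    (S.card : ℝ) ≤ Real.log y ^ A → (|D| : ℝ) ≤ (y : ℝ) ^ (4 * Real.exp (1 / 2) - ε) →
    (∀ p : ℕ, p.Prime → p ≤ y → p ∉ S → ∃ t : ℤ, (p : ℤ) ∣ D - t ^ 2) → IsSquare D := by
  wlog hε1 : ε ≤ 1 generalizing ε
  · have h1 := this 1 one_pos le_rfl
    filter_upwards [h1, eventually_ge_atTop 1] with y hy hy1 D S hS hD hp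
    refine hy D S hS (hD.trans ?_) hp
    apply Real.rpow_le_rpow_of_exponent_le (by exact_mod_cast hy1)
    linarith
  wlog hA : 1 ≤ A generalizing A
  · filter_upwards [this 1 le_rfl, eventually_ge_atTop 3] with y hy hy1 D S hS hD hp
    refine hy D S (hS.trans ?_) hD hp
    apply Real.rpow_le_rpow_of_exponent_le _ (by linarith)
    rw [Real.le_log_iff_exp_le (by exact_mod_cast (by omega : 0 < y))]
    have h3 : (3 : ℝ) ≤ y := by exact_mod_cast hy1
    have := Real.exp_one_lt_d9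
    linarith
  obtain ⟨he1, he2⟩ := exp_half_bounds
  set r := Real.exp (1 / 2) with hr
  -- parameters
  set η : ℝ := ε / 64 with hη
  have hη0 : 0 < η := by positivity
  obtain ⟨δ, hδ0, hbur⟩ := bur8 η hη0
  obtain ⟨M0, hM0⟩ := eventually_atTop.mp hbur
  obtain ⟨C, hC0, hfin⟩ := final_ineq
  set κ : ℝ := r - ε / 16 with hκ
  have hκ1 : 1 ≤ κ := by rw [hκ]; linarith
  have hκ2 : Real.log κ < 1 / 2 := by
    rw [Real.log_lt_iff_lt_exp (by linarith)]
    rw [hκ, ← hr]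
    linarith
  set γ : ℝ := 1 / 2 - Real.log κ with hγ
  have hγ0 : 0 < γ := by rw [hγ]; linarith
  have hκ3 : Real.log (3 / 2) < 1 / 2 := by
    rw [Real.log_lt_iff_lt_exp (by norm_num)]
    rw [← hr]; linarith
  set γ₁ : ℝ := 1 / 2 - Real.log (3 / 2) with hγ₁
  have hγ₁0 : 0 < γ₁ := by rw [hγ₁]; linarith
  set τ : ℝ := 1 / (2 * A) with hτ
  have hτ0 : 0 < τ := by positivity
  have hτ1 : τ ≤ 1 / 2 := by
    rw [hτ]
    apply one_div_le_one_div_of_le (by norm_num)
    linarith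
  set β : ℝ := min (τ / 16) (min δ (η * τ / 2)) with hβ
  have hβ0 : 0 < β := lt_min (by positivity) (lt_min hδ0 (by positivity))
  have hβ1 : β ≤ τ / 16 := min_le_left _ _
  have hβ2 : β ≤ δ := (min_le_right _ _).trans (min_le_left _ _)
  have hβ3 : β ≤ η * τ / 2 := (min_le_right _ _).trans (min_le_right _ _)
  -- eventual inequalities
  have tc : Tendsto (fun q : ℕ => (q : ℝ)) atTop atTop := tendsto_natCast_atTop_atTop
  have f1 : ∀ᶠ x : ℝ in atTop, 4 * (1 + 2 * Real.log x) ≤ x ^ (1 / 16 : ℝ) := by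
    have h1 := (isLittleO_log_rpow_atTop (show (0 : ℝ) < 1 / 16 by norm_num)).def
      (show (0 : ℝ) < 1 / 16 by norm_num)
    have h2 : ∀ᶠ x : ℝ in atTop, 8 ≤ x ^ (1 / 16 : ℝ) :=
      (tendsto_rpow_atTop (by norm_num : (0 : ℝ) < 1 / 16)).eventually_ge_atTop _
    filter_upwards [h1, h2, eventually_ge_atTop 1] with x hx hx2 hx1
    have h3 : 0 ≤ Real.log x := Real.log_nonneg hx1
    rw [Real.norm_eq_abs, Real.norm_eq_abs, abs_of_nonneg h3, abs_of_nonneg (by positivity)] at hx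
    linarith
  have f2 : ∀ᶠ x : ℝ in atTop, 1 ≤ (γ₁ / 2) * x ^ (τ / 8) :=
    ((tendsto_rpow_atTop (by positivity : (0 : ℝ) < τ / 8)).const_mul_atTop
      (by positivity : (0 : ℝ) < γ₁ / 2)).eventually_ge_atTop _
  have f3 : ∀ᶠ x : ℝ in atTop, 1 ≤ (γ / 2) * x ^ δ :=
    ((tendsto_rpow_atTop hδ0).const_mul_atTop
      (by positivity : (0 : ℝ) < γ / 2)).eventually_ge_atTop _
  have f4 : ∀ᶠ x : ℝ in atTop, 1 ≤ (γ / 2) * x ^ (η * τ / 2) :=
    ((tendsto_rpow_atTop (by positivity : (0 : ℝ) < η * τ / 2)).const_mul_atTop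
      (by positivity : (0 : ℝ) < γ / 2)).eventually_ge_atTop _
  have f8 := Real.tendsto_log_atTop.eventually (loss_small A β hA hβ0)
  have f5 : ∀ᶠ x : ℝ in atTop, 16 ≤ x ^ (ε / 16) :=
    (tendsto_rpow_atTop (by positivity : (0 : ℝ) < ε / 16)).eventually_ge_atTop _
  have f6 : ∀ᶠ x : ℝ in atTop, 2 ≤ x ^ (1 / 4 : ℝ) :=
    (tendsto_rpow_atTop (by norm_num : (0 : ℝ) < 1 / 4)).eventually_ge_atTop _
  have f7 : ∀ᶠ x : ℝ in atTop, 4 * C / min γ γ₁ + 1 ≤ Real.log x :=
    Real.tendsto_log_atTop.eventually_ge_atTop _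
  filter_upwards [tc.eventually f1, tc.eventually f2, tc.eventually f3, tc.eventually f4,
    tc.eventually f5, tc.eventually f6, tc.eventually f7, tc.eventually f8,
    eventually_ge_atTop (M0 + 16)]
    with y g1 g2 g3 g4 g5 g6 g7 g8 hy D S hScard hD hsqD
  by_contra hDsq
  have hD0 : D ≠ 0 := by
    rintro rfl
    exact hDsq ⟨0, by norm_num⟩
  have hy16 : 16 ≤ y := by omega
  have hyr : (16 : ℝ) ≤ y := by exact_mod_cast hy16
  have hy0 : (0 : ℝ) < y := by linarith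
  have hy1 : (1 : ℝ) ≤ y := by linarith
  have hly : 0 < Real.log y := Real.log_pos (by linarith)
  have hγm : 0 < min γ γ₁ := lt_min hγ0 hγ₁0
  have hCly : 2 * (C / Real.log y) < min γ γ₁ := by
    have h1 : 4 * C / min γ γ₁ < Real.log y := by linarith
    rw [div_lt_iff₀ hγm] at h1
    rw [← mul_div_assoc, div_lt_iff₀ hly]
    linarith [mul_comm (min γ γ₁) (Real.log y)]
  obtain ⟨N, θ, hN0, hNodd, hNsq, hND, hN1, hchar⟩ := exists_char D hD0 hDsq
  haveI : NeZero N := ⟨hN0⟩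
  haveI : NeZero (8 * N) := ⟨by omega⟩
  set χ := chi 8 N (psi θ) with hχ
  have hχ1 : χ ≠ 1 := chi_ne_one N hNodd hNsq θ hN1
  set E : ℝ := 4 * r - ε with hE
  have hE7 : E ≤ 7 := by rw [hE]; linarith
  have hDr : ((D.natAbs : ℕ) : ℝ) = |(D : ℝ)| := by
    rw [Nat.cast_natAbs]
    push_cast
    rfl
  -- the exceptional primes
  have hsub : exc χ y ⊆ insert 2 (S ∪ D.natAbs.primeFactors) := by
    intro l hl
    unfold exc at hl
    rw [mem_filter, mem_range] at hl
    obtain ⟨h1, hlp, h3⟩ := hl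
    by_contra hcon
    rw [mem_insert, mem_union, not_or, not_or] at hcon
    obtain ⟨hl2, hlS, hlD⟩ := hcon
    have hlD' : ¬ (l : ℤ) ∣ D := by
      intro h
      apply hlD
      rw [Nat.mem_primeFactors]
      exact ⟨hlp, Int.natCast_dvd.1 h, Int.natAbs_ne_zero.2 hD0⟩
    apply h3
    have h4 := hchar l hlp hl2 hlD' (hsqD l hlp (by omega) hlS)
    rw [hχ, chi_nat, psi_apply, jchar_apply]
    exact_mod_cast h4
  have hcardE : ((exc χ y).card : ℝ) ≤ 16 * Real.log y ^ A := by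
    have h1 : (exc χ y).card ≤ S.card + D.natAbs.primeFactors.card + 1 :=
      (card_le_card hsub).trans ((card_insert_le _ _).trans (Nat.add_le_add_right (card_union_le _ _) 1))
    have h2 : ((exc χ y).card : ℝ) ≤ S.card + D.natAbs.primeFactors.card + 1 := by exact_mod_cast h1
    have h3 := card_pf_le (Int.natAbs_ne_zero.2 hD0)
    have h4 : Real.log (D.natAbs : ℕ) ≤ 7 * Real.log y := by
      have h5 : ((D.natAbs : ℕ) : ℝ) ≤ (y : ℝ) ^ (7 : ℝ) := by
        rw [hDr]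
        exact hD.trans (Real.rpow_le_rpow_of_exponent_le hy1 hE7)
      have h6 : (0 : ℝ) < (D.natAbs : ℕ) := by
        exact_mod_cast Int.natAbs_pos.2 hD0
      have h7 := Real.log_le_log h6 h5
      rwa [Real.log_rpow hy0] at h7
    have h8 : 1 ≤ Real.log y := by
      rw [Real.le_log_iff_exp_le hy0]
      have := Real.exp_one_lt_d9
      linarith
    have h9 : Real.log y ≤ Real.log y ^ A := by
      calc Real.log y = Real.log y ^ (1 : ℝ) := (Real.rpow_one _).symm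
        _ ≤ _ := Real.rpow_le_rpow_of_exponent_le h8 hA
    linarith
  set K : ℕ := ⌊16 * Real.log y ^ A⌋₊ + 1 with hK
  have hL1 : 1 ≤ Real.log y ^ A := by
    apply Real.one_le_rpow _ (by linarith)
    rw [Real.le_log_iff_exp_le hy0]
    have := Real.exp_one_lt_d9
    linarith
  have hKle : (K : ℝ) ≤ 32 * Real.log y ^ A := by
    have := Nat.floor_le (show 0 ≤ 16 * Real.log y ^ A by linarith)
    rw [hK]
    push_cast
    linarith
  have hKc : (exc χ y).card ≤ K := by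
    have := Nat.le_floor hcardE
    omega
  have hexcp : ∀ q ∈ exc χ y, q.Prime := by
    intro q hq
    unfold exc at hq
    exact (mem_filter.mp hq).2.1
  have hR : ∏ q ∈ exc χ y, rh (1 - τ) q ≤ (y : ℝ) ^ β := by
    refine (prod_rh_le (1 - τ) (by linarith) (by linarith) _ hexcp K hKc (by omega)).trans ?_
    rw [Real.rpow_def_of_pos hy0]
    apply Real.exp_le_exp.2
    have hKp : (0 : ℝ) < K := by
      rw [hK]
      positivity
    have hKlog : 0 ≤ Real.log K := Real.log_nonneg (by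
      have : 1 ≤ K := by omega
      exact_mod_cast this)
    have e : 1 - (1 - τ) = τ := by ring
    rw [e]
    calc 7 * ((K : ℝ) ^ τ * (2 + Real.log K))
        ≤ 7 * ((32 * Real.log y ^ A) ^ τ * (2 + Real.log (32 * Real.log y ^ A))) := by
          gcongr
      _ ≤ β * Real.log y := g8
      _ = Real.log y * β := mul_comm _ _
  set R := ∏ q ∈ exc χ y, rh (1 - τ) q with hRdef
  have hR0 : 0 ≤ R := prod_nonneg fun q hq => by
    have := one_le_rh (show 1 / 2 ≤ 1 - τ by linarith) (hexcp q hq)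
    linarith
  set M : ℝ := ((8 * N : ℕ) : ℝ) with hM
  have hM8 : 8 ≤ M := by
    rw [hM]
    exact_mod_cast (by omega : 8 ≤ 8 * N)
  have hMpos : 0 < M := by linarith
  have hM1 : 1 ≤ M := by linarith
  have hMD : M ≤ 8 * (y : ℝ) ^ E := by
    have h1 : N ≤ D.natAbs := Nat.le_of_dvd (Int.natAbs_pos.mpr hD0) hND
    have h2 : (N : ℝ) ≤ |(D : ℝ)| := by
      rw [← hDr]
      exact_mod_cast h1
    rw [hM]
    push_cast
    linarith
  rcases le_or_gt M ((y : ℝ) ^ 2) with hcase | hcase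
  · -- small modulus: Pólya–Vinogradov
    set T : ℝ := 4 * √M * (1 + Real.log M) with hT
    have hlM : 0 ≤ Real.log M := Real.log_nonneg hM1
    have hT0 : 0 ≤ T := by positivity
    have hPV : ∀ Y : ℕ, ‖shortSum (8 * N) χ Y‖ ≤ T := by
      intro Y
      exact Pool.Agent.H38R2.CG.PVh.sum_le (8 * N) χ (by omega) hχ1 Y
    set X : ℕ := ⌈(y : ℝ) ^ (5 / 4 : ℝ)⌉₊ with hX
    have hXl : (y : ℝ) ^ (5 / 4 : ℝ) ≤ X := Nat.le_ceil _
    have hy54 : (1 : ℝ) ≤ (y : ℝ) ^ (5 / 4 : ℝ) := Real.one_le_rpow hy1 (by norm_num)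
    have hXu : (X : ℝ) ≤ (y : ℝ) ^ (3 / 2 : ℝ) := by
      have h1 : (X : ℝ) ≤ (y : ℝ) ^ (5 / 4 : ℝ) + 1 := (Nat.ceil_lt_add_one (by positivity)).le
      have h2 : (y : ℝ) ^ (3 / 2 : ℝ) = (y : ℝ) ^ (1 / 4 : ℝ) * (y : ℝ) ^ (5 / 4 : ℝ) := by
        rw [← Real.rpow_add hy0]; norm_num
      rw [h2]
      calc (X : ℝ) ≤ 2 * (y : ℝ) ^ (5 / 4 : ℝ) := by linarith
        _ ≤ (y : ℝ) ^ (1 / 4 : ℝ) * (y : ℝ) ^ (5 / 4 : ℝ) :=
            mul_le_mul_of_nonneg_right g6 (by linarith)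
    have hX1 : 1 ≤ X := by
      have : (1 : ℝ) ≤ X := hy54.trans hXl
      exact_mod_cast this
    have hXpos : (0 : ℝ) < X := by exact_mod_cast hX1
    have hbase : ∀ Y ≤ X, ‖shortSum (8 * N) χ Y‖ ≤ 0 * Y + T ^ τ * (Y : ℝ) ^ (1 - τ) := by
      intro Y _
      rw [zero_mul, zero_add]
      have h1 := hPV Y
      have h2 := shortSum_triv χ Y
      set w := ‖shortSum (8 * N) χ Y‖ with hw
      have hw0 : 0 ≤ w := norm_nonneg _
      calc w = w ^ (τ + (1 - τ)) := by
            have : τ + (1 - τ) = 1 := by ring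
            rw [this, Real.rpow_one]
        _ = w ^ τ * w ^ (1 - τ) := Real.rpow_add_of_nonneg hw0 hτ0.le (by linarith)
        _ ≤ T ^ τ * (Y : ℝ) ^ (1 - τ) := by
            apply mul_le_mul (Real.rpow_le_rpow hw0 h1 hτ0.le)
              (Real.rpow_le_rpow hw0 h2 (by linarith)) (by positivity) (by positivity)
    have hGX := G_bound' χ (1 - τ) (by linarith) (by linarith) (exc χ y) hexcp X 0 (T ^ τ) le_rfl
      (by positivity) hbase X le_rfl
    rw [← hRdef, zero_mul, zero_add] at hGX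
    -- bound for T
    have hTy : T ≤ (y : ℝ) ^ (17 / 16 : ℝ) := by
      have h1 : √M ≤ y := by
        rw [Real.sqrt_le_left hy0.le]
        exact hcase
      have h2 : Real.log M ≤ 2 * Real.log y := by
        have := Real.log_le_log hMpos hcase
        rwa [Real.log_pow, Nat.cast_ofNat] at this
      calc T ≤ 4 * y * (1 + 2 * Real.log y) := by
            rw [hT]
            gcongr
        _ = y * (4 * (1 + 2 * Real.log y)) := by ring
        _ ≤ y * (y : ℝ) ^ (1 / 16 : ℝ) := by gcongr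
        _ = (y : ℝ) ^ (17 / 16 : ℝ) := by
            nth_rewrite 1 [← Real.rpow_one (y : ℝ)]
            rw [← Real.rpow_add hy0]; norm_num
    have hTs : T ^ τ ≤ (y : ℝ) ^ (17 / 16 * τ) := by
      calc T ^ τ ≤ ((y : ℝ) ^ (17 / 16 : ℝ)) ^ τ := Real.rpow_le_rpow hT0 hTy hτ0.le
        _ = (y : ℝ) ^ (17 / 16 * τ) := by
            rw [← Real.rpow_mul hy0.le]
    have hXs : (y : ℝ) ^ (5 / 4 * τ) ≤ (X : ℝ) ^ τ := by
      calc (y : ℝ) ^ (5 / 4 * τ) = ((y : ℝ) ^ (5 / 4 : ℝ)) ^ τ := by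
            rw [← Real.rpow_mul hy0.le]
        _ ≤ (X : ℝ) ^ τ := Real.rpow_le_rpow (by positivity) hXl hτ0.le
    have hθ : ‖G χ (exc χ y) X‖ ≤ (γ₁ / 2) * X := by
      refine hGX.trans ?_
      have h1 : R * T ^ τ ≤ (γ₁ / 2) * (X : ℝ) ^ τ := by
        calc R * T ^ τ ≤ (y : ℝ) ^ β * (y : ℝ) ^ (17 / 16 * τ) :=
              mul_le_mul hR hTs (by positivity) (by positivity)
          _ = (y : ℝ) ^ (β + 17 / 16 * τ) := by
              rw [← Real.rpow_add hy0]
          _ ≤ (y : ℝ) ^ (5 / 4 * τ - τ / 8) := by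
              apply Real.rpow_le_rpow_of_exponent_le hy1
              linarith
          _ = 1 * (y : ℝ) ^ (5 / 4 * τ - τ / 8) := by rw [one_mul]
          _ ≤ ((γ₁ / 2) * (y : ℝ) ^ (τ / 8)) * (y : ℝ) ^ (5 / 4 * τ - τ / 8) := by
              apply mul_le_mul_of_nonneg_right g2 (by positivity)
          _ = (γ₁ / 2) * (y : ℝ) ^ (5 / 4 * τ) := by
              rw [mul_assoc, ← Real.rpow_add hy0]
              congr 2
              ring
          _ ≤ (γ₁ / 2) * (X : ℝ) ^ τ := by gcongr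
      calc R * (T ^ τ * (X : ℝ) ^ (1 - τ)) = (R * T ^ τ) * (X : ℝ) ^ (1 - τ) := by ring
        _ ≤ ((γ₁ / 2) * (X : ℝ) ^ τ) * (X : ℝ) ^ (1 - τ) :=
            mul_le_mul_of_nonneg_right h1 (by positivity)
        _ = (γ₁ / 2) * X := by
            rw [mul_assoc, ← Real.rpow_add hXpos]
            have : τ + (1 - τ) = 1 := by ring
            rw [this, Real.rpow_one]
    have hlogX : Real.log X ≤ 3 / 2 * Real.log y := by
      have := Real.log_le_log hXpos hXu
      rwa [Real.log_rpow hy0] at this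
    have := hfin (8 * N) χ y X (3 / 2) (γ₁ / 2) (by omega) hX1 (by norm_num) hlogX hθ
    have h5 : min γ γ₁ ≤ γ₁ := min_le_right _ _
    linarith
  · -- large modulus: Burgess
    have hyM : (y : ℝ) ≤ M ^ (1 / 2 : ℝ) := by
      have h1 : ((y : ℝ) ^ 2) ^ (1 / 2 : ℝ) ≤ M ^ (1 / 2 : ℝ) :=
        Real.rpow_le_rpow (by positivity) hcase.le (by norm_num)
      rwa [← Real.sqrt_eq_rpow, Real.sqrt_sq hy0.le] at h1
    have hMM0 : M0 ≤ 8 * N := by
      have h1 : (y : ℝ) ≤ M := by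
        have h0 : (y : ℝ) ≤ (y : ℝ) ^ 2 := by
          rw [pow_two]
          exact le_mul_of_one_le_left hy0.le hy1
        linarith
      have h2 : y ≤ 8 * N := by
        rw [hM] at h1
        exact_mod_cast h1
      omega
    have hburX := hM0 (8 * N) hMM0 N rfl hNodd hNsq (psi θ)
    rw [← hχ, ← hM] at hburX
    set Y₀ : ℝ := M ^ (1 / 4 + η) with hY₀
    have hY₀1 : 1 ≤ Y₀ := Real.one_le_rpow hM1 (by positivity)
    have hyη : 1 ≤ (y : ℝ) ^ η := Real.one_le_rpow hy1 hη0.le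
    set X : ℕ := ⌈Y₀ * (y : ℝ) ^ η⌉₊ with hX
    have hXl : Y₀ * (y : ℝ) ^ η ≤ X := Nat.le_ceil _
    have hX1r : 1 ≤ Y₀ * (y : ℝ) ^ η := one_le_mul_of_one_le_of_one_le hY₀1 hyη
    have hXu : (X : ℝ) ≤ 2 * (Y₀ * (y : ℝ) ^ η) := by
      have h1 : (X : ℝ) ≤ Y₀ * (y : ℝ) ^ η + 1 := (Nat.ceil_lt_add_one (by positivity)).le
      linarith
    have hX1 : 1 ≤ X := by
      have : (1 : ℝ) ≤ X := hX1r.trans hXl
      exact_mod_cast this
    have hXpos : (0 : ℝ) < X := by exact_mod_cast hX1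
    have hη64 : η ≤ 1 / 64 := by rw [hη]; linarith
    -- X is at most the square root of M
    have hXM : (X : ℝ) ≤ M ^ (1 / 2 + δ) := by
      have h1 : (y : ℝ) ^ η ≤ M ^ (η / 2) := by
        calc (y : ℝ) ^ η ≤ (M ^ (1 / 2 : ℝ)) ^ η := Real.rpow_le_rpow hy0.le hyM hη0.le
          _ = M ^ (η / 2) := by rw [← Real.rpow_mul hMpos.le]; congr 1; ring
      have h2 : (2 : ℝ) ≤ M ^ (1 / 8 : ℝ) := by
        have h3 : (2 : ℝ) ≤ (y : ℝ) ^ (1 / 4 : ℝ) := g6
        have h4 : (y : ℝ) ^ (1 / 4 : ℝ) ≤ (M ^ (1 / 2 : ℝ)) ^ (1 / 4 : ℝ) :=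
          Real.rpow_le_rpow hy0.le hyM (by norm_num)
        rw [← Real.rpow_mul hMpos.le] at h4
        norm_num at h4
        norm_num at h3 ⊢
        linarith
      calc (X : ℝ) ≤ 2 * (Y₀ * (y : ℝ) ^ η) := hXu
        _ ≤ M ^ (1 / 8 : ℝ) * (M ^ (1 / 4 + η) * M ^ (η / 2)) := by gcongr
        _ = M ^ (1 / 8 + (1 / 4 + η + η / 2)) := by
            rw [← Real.rpow_add hMpos, ← Real.rpow_add hMpos]
        _ ≤ M ^ (1 / 2 + δ) := by
            apply Real.rpow_le_rpow_of_exponent_le hM1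
            linarith
    set dl : ℝ := M ^ (-δ) with hdl
    have hdl0 : 0 < dl := Real.rpow_pos_of_pos hMpos _
    have hbase : ∀ Y ≤ X, ‖shortSum (8 * N) χ Y‖ ≤ dl * Y + Y₀ ^ τ * (Y : ℝ) ^ (1 - τ) := by
      intro Y hYX
      have hYX' : (Y : ℝ) ≤ X := by exact_mod_cast hYX
      rcases le_or_gt Y₀ (Y : ℝ) with h1 | h1
      · have h2 := hburX Y h1 (hYX'.trans hXM)
        have h3 : 0 ≤ Y₀ ^ τ * (Y : ℝ) ^ (1 - τ) := by positivity
        linarith
      · have h2 := shortSum_triv χ Y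
        have h3 : (Y : ℝ) ≤ Y₀ ^ τ * (Y : ℝ) ^ (1 - τ) := by
          calc (Y : ℝ) = (Y : ℝ) ^ (τ + (1 - τ)) := by
                have : τ + (1 - τ) = 1 := by ring
                rw [this, Real.rpow_one]
            _ = (Y : ℝ) ^ τ * (Y : ℝ) ^ (1 - τ) :=
                Real.rpow_add_of_nonneg (Nat.cast_nonneg _) hτ0.le (by linarith)
            _ ≤ _ := by
                apply mul_le_mul_of_nonneg_right _ (by positivity)
                exact Real.rpow_le_rpow (Nat.cast_nonneg _) h1.le hτ0.le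
        have h4 : 0 ≤ dl * Y := by positivity
        linarith
    have hGX := G_bound' χ (1 - τ) (by linarith) (by linarith) (exc χ y) hexcp X dl (Y₀ ^ τ)
      hdl0.le (by positivity) hbase X le_rfl
    rw [← hRdef] at hGX
    have hθ : ‖G χ (exc χ y) X‖ ≤ γ * X := by
      refine hGX.trans ?_
      have h1 : R * dl ≤ γ / 2 := by
        have e1 : dl ≤ (y : ℝ) ^ (-(2 * δ)) := by
          calc dl ≤ ((y : ℝ) ^ 2) ^ (-δ) := by
                apply Real.rpow_le_rpow_of_nonpos (by positivity) hcase.le (by linarith)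
            _ = (y : ℝ) ^ (-(2 * δ)) := by
                rw [← Real.rpow_natCast, ← Real.rpow_mul hy0.le]; congr 1; push_cast; ring
        calc R * dl ≤ (y : ℝ) ^ β * (y : ℝ) ^ (-(2 * δ)) :=
              mul_le_mul hR e1 hdl0.le (by positivity)
          _ ≤ (y : ℝ) ^ δ * (y : ℝ) ^ (-(2 * δ)) := by
              gcongr
          _ = 1 * (y : ℝ) ^ (-δ) := by
              rw [one_mul, ← Real.rpow_add hy0]; congr 1; ring
          _ ≤ ((γ / 2) * (y : ℝ) ^ δ) * (y : ℝ) ^ (-δ) := by gcongr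
          _ = γ / 2 := by
              rw [mul_assoc, ← Real.rpow_add hy0, add_neg_cancel, Real.rpow_zero, mul_one]
      have h2 : R * Y₀ ^ τ ≤ (γ / 2) * (X : ℝ) ^ τ := by
        have e1 : Y₀ ^ τ * (y : ℝ) ^ (η * τ) ≤ (X : ℝ) ^ τ := by
          calc Y₀ ^ τ * (y : ℝ) ^ (η * τ) = (Y₀ * (y : ℝ) ^ η) ^ τ := by
                rw [Real.mul_rpow (by linarith) (by positivity), ← Real.rpow_mul hy0.le]
            _ ≤ (X : ℝ) ^ τ := Real.rpow_le_rpow (by positivity) hXl hτ0.le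
        calc R * Y₀ ^ τ ≤ (y : ℝ) ^ β * Y₀ ^ τ :=
              mul_le_mul_of_nonneg_right hR (by positivity)
          _ ≤ (y : ℝ) ^ (η * τ / 2) * Y₀ ^ τ := by
              gcongr
          _ = 1 * (y : ℝ) ^ (η * τ / 2) * Y₀ ^ τ := by rw [one_mul]
          _ ≤ ((γ / 2) * (y : ℝ) ^ (η * τ / 2)) * (y : ℝ) ^ (η * τ / 2) * Y₀ ^ τ := by gcongr
          _ = (γ / 2) * (Y₀ ^ τ * (y : ℝ) ^ (η * τ)) := by
              have : (y : ℝ) ^ (η * τ) = (y : ℝ) ^ (η * τ / 2) * (y : ℝ) ^ (η * τ / 2) := by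
                rw [← Real.rpow_add hy0]
                congr 1
                ring
              rw [this]
              ring
          _ ≤ (γ / 2) * (X : ℝ) ^ τ := by gcongr
      calc R * (dl * X + Y₀ ^ τ * (X : ℝ) ^ (1 - τ)) =
            (R * dl) * X + (R * Y₀ ^ τ) * (X : ℝ) ^ (1 - τ) := by ring
        _ ≤ (γ / 2) * X + ((γ / 2) * (X : ℝ) ^ τ) * (X : ℝ) ^ (1 - τ) :=
            add_le_add (mul_le_mul_of_nonneg_right h1 hXpos.le)
              (mul_le_mul_of_nonneg_right h2 (by positivity))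
        _ = γ * X := by
            rw [mul_assoc, ← Real.rpow_add hXpos]
            have : τ + (1 - τ) = 1 := by ring
            rw [this, Real.rpow_one]
            ring
    have hlogX : Real.log X ≤ κ * Real.log y := by
      have h1 : (X : ℝ) ≤ (y : ℝ) ^ κ := by
        have e1 : Y₀ ≤ 8 * (y : ℝ) ^ (E * (1 / 4 + η)) := by
          calc Y₀ ≤ (8 * (y : ℝ) ^ E) ^ (1 / 4 + η) :=
                Real.rpow_le_rpow hMpos.le hMD (by positivity)
            _ = (8 : ℝ) ^ (1 / 4 + η) * (y : ℝ) ^ (E * (1 / 4 + η)) := by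
                rw [Real.mul_rpow (by norm_num) (by positivity), ← Real.rpow_mul hy0.le]
            _ ≤ (8 : ℝ) ^ (1 : ℝ) * (y : ℝ) ^ (E * (1 / 4 + η)) := by
                gcongr
                · norm_num
                · linarith
            _ = 8 * (y : ℝ) ^ (E * (1 / 4 + η)) := by rw [Real.rpow_one]
        calc (X : ℝ) ≤ 2 * (Y₀ * (y : ℝ) ^ η) := hXu
          _ ≤ 2 * ((8 * (y : ℝ) ^ (E * (1 / 4 + η))) * (y : ℝ) ^ η) := by gcongr
          _ = 16 * (y : ℝ) ^ (E * (1 / 4 + η) + η) := by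
              rw [Real.rpow_add hy0]; ring
          _ ≤ (y : ℝ) ^ (ε / 16) * (y : ℝ) ^ (E * (1 / 4 + η) + η) := by gcongr
          _ = (y : ℝ) ^ (ε / 16 + (E * (1 / 4 + η) + η)) := by rw [← Real.rpow_add hy0]
          _ ≤ (y : ℝ) ^ κ := by
              apply Real.rpow_le_rpow_of_exponent_le hy1
              rw [hκ]
              have : E * (1 / 4 + η) + η ≤ r - ε / 4 + 8 * η := by
                have e2 : E * η ≤ 7 * η := mul_le_mul_of_nonneg_right hE7 hη0.le
                have e3 : E * (1 / 4) = r - ε / 4 := by rw [hE]; ring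
                linarith
              have e4 : 8 * η = ε / 8 := by rw [hη]; ring
              linarith
      have := Real.log_le_log hXpos h1
      rwa [Real.log_rpow hy0] at this
    have := hfin (8 * N) χ y X κ γ (by omega) hX1 hκ1 hlogX hθ
    have h5 : min γ γ₁ ≤ γ := min_le_left _ _
    linarith


end Pool.Agent.NH20.RP
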